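import Pool.Agent.W78.GC.Defs

/-!
GC-4: the recursion for the colour `col3`.
-/

set_option autoImplicit false

open Finset Filter

namespace Pool.Agent.W45.GC

open Pool.Agent.H376R2.MR
open Pool.Agent.W78.GA
open Pool.Agent.W78.GC

lemma hD3 : (3 : ℤ) ^ 2 < 4 * 3 := by norm_num

/-- the element of norm three -/
def w0 : Qd 3 3 := ⟨0, 1⟩

lemma w0_mul (v : Qd 3 3) : w0 * v = ⟨-3 * v.im, v.re + 3 * v.im⟩ := by
  apply QuadraticAlgebra.ext
  · simp only [w0, QuadraticAlgebra.re_mul]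
    ring
  · simp only [w0, QuadraticAlgebra.im_mul]
    ring

lemma nm_w0 : nm w0 = 3 := by
  simp [nm, w0]

lemma w0_ne : w0 ≠ 0 := by
  intro h
  have := nm_w0
  rw [h, nm_zero] at this
  norm_num at this

lemma prim_iff' (z : Qd 3 3) : prim z ↔ IsCoprime z.re z.im := by
  unfold prim
  rw [Int.isCoprime_iff_gcd_eq_one]

lemma prim_w0_mul {v : Qd 3 3} (h : prim v) (h3 : ¬ (3 : ℤ) ∣ v.re) : prim (w0 * v) := by
  rw [prim_iff'] at h ⊢
  rw [w0_mul]
  change IsCoprime (-3 * v.im) (v.re + 3 * v.im)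
  apply IsCoprime.mul_left
  · have h4 : IsCoprime (3 : ℤ) (v.re + 3 * v.im) := by
      rw [Int.prime_three.coprime_iff_not_dvd]
      intro h5
      exact h3 ((Int.dvd_add_left (Dvd.intro _ rfl)).1 h5)
    exact h4.neg_left
  · exact (h.symm.add_mul_right_right 3)

lemma exists_v {z : Qd 3 3} (h : prim z) (h3 : (3 : ℤ) ∣ z.re) :
    ∃ v : Qd 3 3, prim v ∧ col3 v ∧ w0 * v = z := by
  obtain ⟨m, hm⟩ := h3
  have h' := (prim_iff' z).1 h
  refine ⟨⟨z.re + z.im, -m⟩, ?_, ?_, ?_⟩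
  · rw [prim_iff']
    change IsCoprime (z.re + z.im) (-m)
    rw [hm] at h' ⊢
    have h4 : IsCoprime z.im m := (IsCoprime.of_mul_left_right h').symm
    have h5 : IsCoprime (3 * m + z.im) m := h4.mul_add_right_left 3
    exact h5.neg_right
  · unfold col3
    change ¬ (3 : ℤ) ∣ z.re + z.im
    intro h4
    have h5 : (3 : ℤ) ∣ z.im := (Int.dvd_add_right ⟨m, hm⟩).1 h4
    have h6 := h'.isUnit_of_dvd' ⟨m, hm⟩ h5
    exact Int.prime_three.not_isUnit h6
  · rw [w0_mul]
    apply QuadraticAlgebra.ext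
    · change -3 * -m = z.re
      rw [hm]; ring
    · change z.re + z.im + 3 * -m = z.im
      rw [hm]; ring

lemma not_col3 (v : Qd 3 3) : ¬ col3 (w0 * v) := by
  unfold col3
  rw [w0_mul]
  push Not
  exact ⟨-v.im, by ring⟩

lemma lam_three : lam 3 = -1 := lam_prime Nat.prime_three

lemma gl_w0 {v : Qd 3 3} (hv : v ≠ 0) : gl (w0 * v) = -gl v := by
  unfold gl
  rw [nm_mul, nm_w0, lam_mul (by norm_num) (nm_pos hD3 hv).ne', lam_three]
  ring

lemma bg_w0 {Y : ℝ} (hY : 0 < Y) {v : Qd 3 3} (hv : v ≠ 0) :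
    bg Y (w0 * v) = 1 / 3 * bg (Y / 3) v := by
  have hn := nm_posR hD3 hv
  unfold bg
  rw [nm_mul, nm_w0]
  push_cast
  rw [Real.log_mul (by norm_num) hn.ne', Real.log_div hY.ne' (by norm_num)]
  have e : Real.log 3 + Real.log (nm v) - Real.log Y = Real.log (nm v) - (Real.log Y - Real.log 3) := by
    ring
  rw [e]
  field_simp

open scoped Classical in
lemma sum_eq (Y : ℝ) (k : ℤ) (hY : 0 < Y) :
    ∑ z ∈ (pball 3 3 (Real.exp 1 * Y)).filter (fun z => ¬ col3 z),
      ((gl z : ℂ) * (bg Y z : ℂ)) * ps k z =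
    -(1 / 3 : ℂ) * ps k w0 * Gc col3 (Y / 3) k := by
  have h1 : (pball 3 3 (Real.exp 1 * Y)).filter (fun z => ¬ col3 z) =
      (cball col3 (Real.exp 1 * (Y / 3))).image (fun v => w0 * v) := by
    ext z
    simp only [cball, mem_filter, mem_image, mem_pball hD3]
    constructor
    · rintro ⟨⟨h1, h2⟩, h3⟩
      unfold col3 at h3
      rw [not_not] at h3
      obtain ⟨v, v1, v2, v3⟩ := exists_v h1 h3
      refine ⟨v, ⟨⟨v1, ?_⟩, v2⟩, v3⟩
      rw [← v3, nm_mul, nm_w0] at h2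
      push_cast at h2
      linarith
    · rintro ⟨v, ⟨⟨v1, v2⟩, v3⟩, rfl⟩
      refine ⟨⟨prim_w0_mul v1 v3, ?_⟩, not_col3 v⟩
      rw [nm_mul, nm_w0]
      push_cast
      linarith
  rw [h1, Finset.sum_image]
  · unfold Gc DPG
    rw [Finset.mul_sum]
    refine Finset.sum_congr rfl fun v hv => ?_
    have hp : prim v := by
      have := (mem_filter.1 hv).1
      exact ((mem_pball hD3).1 this).1
    rw [gl_w0 (prim_ne_zero hp), bg_w0 hY (prim_ne_zero hp), ps_mul hD3]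
    push_cast
    ring
  · intro a _ b _ hab
    have h2 : w0 * a = w0 * b := hab
    rw [w0_mul, w0_mul] at h2
    have h3 := congrArg QuadraticAlgebra.re h2
    have h4 := congrArg QuadraticAlgebra.im h2
    change -3 * a.im = -3 * b.im at h3
    change a.re + 3 * a.im = b.re + 3 * b.im at h4
    apply QuadraticAlgebra.ext
    · linarith
    · linarith

theorem rec3 : S_REC3 := by
  classical
  intro Y k hY
  have h1 : Gc col3 Y k + -(1 / 3 : ℂ) * ps k w0 * Gc col3 (Y / 3) k =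
      Pool.Agent.W78.GA.GG 3 3 Y k := by
    rw [← sum_eq Y k hY]
    unfold Gc Pool.Agent.W78.GA.GG DPG cball
    exact Finset.sum_filter_add_sum_filter_not _ _ _
  have h2 : Gc col3 Y k = Pool.Agent.W78.GA.GG 3 3 Y k + (1 / 3 : ℂ) * ps k w0 * Gc col3 (Y / 3) k := by
    rw [← h1]
    ring
  rw [h2]
  refine (norm_add_le _ _).trans ?_
  apply add_le_add le_rfl
  rw [norm_mul, norm_mul]
  have h3 : ‖(1 / 3 : ℂ)‖ = 1 / 3 := by
    rw [norm_div, norm_one]
    norm_num
  rw [h3]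
  apply mul_le_mul_of_nonneg_right _ (norm_nonneg _)
  have := norm_ps_le w0 k
  linarith

end Pool.Agent.W45.GC
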